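import Pool.Agent.Lib.MP_d42622_al.Main

/-!
If the residue field of a Noetherian local ring has finite linear defect, then the ring is Koszul;
in particular every absolutely Koszul Noetherian local ring is Koszul.
-/

namespace Pool.Agent.Results.MP_d42622_al.KoszulOfFiniteDefect

open IsLocalRing Pool.Agent.Lib.MP_d42622_al

universe u

/-- Let `R` be a Noetherian local ring with residue field `K`. If `ld_R(K) < ∞` then
`ld_R(K) = 0`. If `R` is absolutely Koszul, then `R` is Koszul. -/
theorem result (R : Type u) [CommRing R] [IsLocalRing R] [IsNoetherianRing R] :
    (linearDefect R (ResidueField R) < ⊤ → linearDefect R (ResidueField R) = 0) ∧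
      (IsAbsolutelyKoszul R → IsKoszul R) :=
  ⟨linearDefect_residueField R, fun h =>
    linearDefect_residueField R (h (ResidueField R) inferInstance)⟩

end Pool.Agent.Results.MP_d42622_al.KoszulOfFiniteDefect
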